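import Pool.Agent.Lib.H22W.Lists

/-!
# The length `(log N) ^ (2 - ε)` for progressions with difference at most `N ^ (1 - δ)`
-/

open Filter Asymptotics

namespace Pool.Agent.Lib.H22X

theorem eventually_le {ε δ : ℝ} (h0 : 0 < ε) (h2 : ε ≤ 2) (hδ : 0 < δ) : ∀ᶠ L : ℝ in atTop,
    Real.log 2 + L ^ (ε / 4) + (2 * L ^ (1 - ε / 4) + 2) * (2 * Real.log L) ≤ δ * L := by
  have e1 : (fun _ : ℝ => Real.log 2) =o[atTop] (fun L : ℝ => L) := isLittleO_const_id_atTop _
  have e2 : (fun L : ℝ => L ^ (ε / 4)) =o[atTop] (fun L : ℝ => L) := by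
    have h5 := (isBigO_refl (fun L : ℝ => L ^ (ε / 4)) atTop).mul_isLittleO
      ((isLittleO_const_left.2 (Or.inr (tendsto_norm_atTop_atTop.comp
        (tendsto_rpow_atTop (show 0 < 1 - ε / 4 by linarith))))) :
        (fun _ : ℝ => (1 : ℝ)) =o[atTop] (fun L : ℝ => L ^ (1 - ε / 4)))
    refine h5.congr' (Eventually.of_forall fun L => mul_one _) ?_
    filter_upwards [eventually_gt_atTop 0] with L hL
    rw [← Real.rpow_add hL]
    norm_num
  have e3 : (fun L : ℝ => L ^ (1 - ε / 4) * Real.log L) =o[atTop] (fun L : ℝ => L) := by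
    have h3 : (fun L : ℝ => Real.log L) =o[atTop] (fun L : ℝ => L ^ (ε / 4)) :=
      isLittleO_log_rpow_atTop (by linarith)
    have h4 := (isBigO_refl (fun L : ℝ => L ^ (1 - ε / 4)) atTop).mul_isLittleO h3
    refine h4.congr' EventuallyEq.rfl ?_
    filter_upwards [eventually_gt_atTop 0] with L hL
    rw [← Real.rpow_add hL]
    norm_num
  have e4 : (fun L : ℝ => Real.log L) =o[atTop] (fun L : ℝ => L) := Real.isLittleO_log_id_atTop
  have e5 := (e1.add e2).add ((e3.const_mul_left 4).add (e4.const_mul_left 4))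
  have e6 := e5.bound hδ
  filter_upwards [e6, eventually_gt_atTop 0] with L hL hL0
  rw [Real.norm_eq_abs, Real.norm_eq_abs, abs_of_pos hL0] at hL
  have := (le_abs_self _).trans hL
  linarith

/-- The conditions hold for progressions of length at most `(log N) ^ (2 - ε)` and difference at most `N ^ (1 - δ)`. -/
theorem eventually_prog {ε δ : ℝ} (h0 : 0 < ε) (h2 : ε ≤ 2) (hδ : 0 < δ) : ∀ᶠ N : ℕ in atTop,
    ∀ h n D : ℕ, 1 ≤ h → (D : ℝ) ≤ (N : ℝ) ^ (1 - δ) →
    (h : ℝ) ≤ Real.log N ^ (2 - ε) → (n : ℝ) ≤ Real.exp (Real.log N ^ (ε / 4)) →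
    ∃ J : ℕ, √h * Real.log (2 * (n : ℝ)) ≤ J ∧ 2 * n * D * h ^ (J + 1) ≤ N := by
  have ht : Tendsto (fun N : ℕ => Real.log N) atTop atTop :=
    Real.tendsto_log_atTop.comp tendsto_natCast_atTop_atTop
  filter_upwards [ht.eventually (eventually_le h0 h2 hδ), ht.eventually (eventually_ge_atTop 1),
    eventually_ge_atTop 1] with N hN hL1 hN1 h n D hh hD hh2 hn
  set L := Real.log N with hL
  have hNpos : (0 : ℝ) < N := by exact_mod_cast hN1
  have hL0 : 0 < L := by linarith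
  rcases Nat.eq_zero_or_pos n with hn0 | hn0
  · subst hn0
    exact ⟨0, by simp, by simp⟩
  have hn1 : (1 : ℝ) ≤ n := by exact_mod_cast hn0
  have hh1 : (1 : ℝ) ≤ h := by exact_mod_cast hh
  have hs : √(h : ℝ) ≤ L ^ (1 - ε / 2) := by
    calc √(h : ℝ) ≤ √(L ^ (2 - ε)) := Real.sqrt_le_sqrt hh2
      _ = L ^ (1 - ε / 2) := by
        rw [Real.sqrt_eq_rpow, ← Real.rpow_mul hL0.le]
        congr 1
        ring
  have hlogn : Real.log n ≤ L ^ (ε / 4) := by
    have := Real.log_le_log (by linarith) hn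
    rwa [Real.log_exp] at this
  have hpow1 : 1 ≤ L ^ (ε / 4) := Real.one_le_rpow hL1 (by linarith)
  have hlog2 : Real.log 2 ≤ 1 := by
    have := Real.log_two_lt_d9
    linarith
  have hlog2n : Real.log (2 * (n : ℝ)) ≤ 2 * L ^ (ε / 4) := by
    rw [Real.log_mul (by norm_num) (by linarith)]
    linarith
  have hlog2n0 : 0 ≤ Real.log (2 * (n : ℝ)) := Real.log_nonneg (by linarith)
  have hprod : √(h : ℝ) * Real.log (2 * (n : ℝ)) ≤ 2 * L ^ (1 - ε / 4) := by
    calc √(h : ℝ) * Real.log (2 * (n : ℝ)) ≤ L ^ (1 - ε / 2) * (2 * L ^ (ε / 4)) := by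
          gcongr
      _ = 2 * (L ^ (1 - ε / 2) * L ^ (ε / 4)) := by ring
      _ = 2 * L ^ (1 - ε / 4) := by
          rw [← Real.rpow_add hL0]
          congr 2
          ring
  refine ⟨⌈√(h : ℝ) * Real.log (2 * (n : ℝ))⌉₊, Nat.le_ceil _, ?_⟩
  set J := ⌈√(h : ℝ) * Real.log (2 * (n : ℝ))⌉₊ with hJ
  have hJ1 : (J : ℝ) < √(h : ℝ) * Real.log (2 * (n : ℝ)) + 1 := Nat.ceil_lt_add_one (by positivity)
  have hlogh : Real.log h ≤ 2 * Real.log L := by
    have h3 := Real.log_le_log (by linarith) hh2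
    rw [Real.log_rpow hL0] at h3
    have h4 : 0 ≤ Real.log L := Real.log_nonneg hL1
    nlinarith
  have hlogh0 : 0 ≤ Real.log h := Real.log_nonneg hh1
  have hfin : Real.log (2 * (n : ℝ) * (h : ℝ) ^ (J + 1)) ≤ δ * L := by
    rw [Real.log_mul (by positivity) (by positivity), Real.log_mul (by norm_num) (by linarith),
      Real.log_pow]
    have h3 : ((J + 1 : ℕ) : ℝ) * Real.log h ≤ (2 * L ^ (1 - ε / 4) + 2) * (2 * Real.log L) := by
      have h4 : ((J + 1 : ℕ) : ℝ) ≤ 2 * L ^ (1 - ε / 4) + 2 := by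
        push_cast
        linarith
      have h5 : (0 : ℝ) ≤ 2 * L ^ (1 - ε / 4) + 2 := by positivity
      exact mul_le_mul h4 hlogh hlogh0 h5
    linarith
  have h6 : (0 : ℝ) < 2 * (n : ℝ) * (h : ℝ) ^ (J + 1) := by positivity
  have h7 : 2 * (n : ℝ) * (h : ℝ) ^ (J + 1) ≤ (N : ℝ) ^ δ := by
    rw [Real.rpow_def_of_pos hNpos, ← hL, mul_comm L δ]
    calc 2 * (n : ℝ) * (h : ℝ) ^ (J + 1) = Real.exp (Real.log (2 * (n : ℝ) * (h : ℝ) ^ (J + 1))) :=
          (Real.exp_log h6).symm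
      _ ≤ Real.exp (δ * L) := Real.exp_le_exp.2 hfin
  have h8 : (2 * (n : ℝ) * (h : ℝ) ^ (J + 1)) * D ≤ N := by
    calc (2 * (n : ℝ) * (h : ℝ) ^ (J + 1)) * D ≤ (N : ℝ) ^ δ * (N : ℝ) ^ (1 - δ) := by
          gcongr
      _ = N := by
          rw [← Real.rpow_add hNpos]
          norm_num
  have h9 : ((2 * n * D * h ^ (J + 1) : ℕ) : ℝ) ≤ N := by
    push_cast
    linarith
  exact_mod_cast h9

end Pool.Agent.Lib.H22X
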