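import Pool.Agent.Lib.H22W.Moments

/-!
# Sums of square roots of `ν + x` for a real number `ν`
-/

open Finset Pool.Agent.Lib.H22W

namespace Pool.Agent.Lib.H22X

/-- The linear form in the square roots of `ν + x`. -/
noncomputable def rform (ν : ℝ) (h : ℕ) (c : ℕ → ℤ) : ℝ := ∑ x ∈ range (h + 1), (c x : ℝ) * √(ν + x)

theorem rform_eq {ν : ℝ} {h : ℕ} (hN' : 0 < ν) (c : ℕ → ℤ) :
    rform ν h c = √ν * ∑ x ∈ range (h + 1), (c x : ℝ) * √(1 + (x : ℝ) / ν) := by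
  rw [rform, mul_sum]
  refine sum_congr rfl fun x _ => ?_
  have e : ν + x = ν * (1 + (x : ℝ) / ν) := by
    field_simp
  rw [e, Real.sqrt_mul hN'.le]
  ring

theorem main_bound {ν : ℝ} {h j : ℕ} {c : ℕ → ℤ} (hN' : 0 < ν) (hm : ∀ i < j, mom h c i = 0)
    (hbig : 2 * (wt h c : ℝ) * (h : ℝ) ^ (j + 1) ≤ ν) :
    |∑ x ∈ range (h + 1), (c x : ℝ) * √(1 + (x : ℝ) / ν) - bc (1 / 2) j * mom h c j / ν ^ j| ≤
      |bc (1 / 2) j| / (2 * ν ^ j) := by
  have h1 : ∑ x ∈ range (h + 1), (c x : ℝ) * psm (1 / 2) (j + 1) ((x : ℝ) / ν) =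
      bc (1 / 2) j * mom h c j / ν ^ j := by
    have e1 : ∀ i, ∑ x ∈ range (h + 1), (c x : ℝ) * (bc (1 / 2) i * ((x : ℝ) / ν) ^ i) =
        bc (1 / 2) i * mom h c i / ν ^ i := by
      intro i
      rw [mom]
      push_cast
      rw [mul_sum, sum_div]
      refine sum_congr rfl fun x _ => ?_
      rw [div_pow]
      ring
    simp only [psm, mul_sum]
    rw [sum_comm, sum_range_succ, e1 j]
    have e2 : ∑ i ∈ range j, ∑ x ∈ range (h + 1), (c x : ℝ) * (bc (1 / 2) i * ((x : ℝ) / ν) ^ i) = 0 := by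
      apply sum_eq_zero
      intro i hi
      rw [e1 i, hm i (mem_range.1 hi)]
      simp
    rw [e2, zero_add]
  rw [← h1, ← sum_sub_distrib]
  have h2 : ∀ x ∈ range (h + 1), |(c x : ℝ) * √(1 + (x : ℝ) / ν) - (c x : ℝ) * psm (1 / 2) (j + 1) ((x : ℝ) / ν)| ≤
      |(c x : ℝ)| * (|bc (1 / 2) j| * ((h : ℝ) / ν) ^ (j + 1)) := by
    intro x hx
    have hx' : (x : ℝ) ≤ h := by
      have := mem_range.1 hx
      exact_mod_cast (by omega : x ≤ h)
    rw [← mul_sub, abs_mul]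
    have h3 := abs_sqrt_sub (x := (x : ℝ) / ν) (by positivity) j
    have h4 := abs_bc_succ_le j
    have h5 : ((x : ℝ) / ν) ^ (j + 1) ≤ ((h : ℝ) / ν) ^ (j + 1) := by gcongr
    have h6 : |bc (1 / 2) (j + 1)| * ((x : ℝ) / ν) ^ (j + 1) ≤ |bc (1 / 2) j| * ((h : ℝ) / ν) ^ (j + 1) := by
      gcongr
    exact mul_le_mul_of_nonneg_left (h3.trans h6) (abs_nonneg _)
  calc |∑ x ∈ range (h + 1), ((c x : ℝ) * √(1 + (x : ℝ) / ν) - (c x : ℝ) * psm (1 / 2) (j + 1) ((x : ℝ) / ν))|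
      ≤ ∑ x ∈ range (h + 1), |(c x : ℝ) * √(1 + (x : ℝ) / ν) - (c x : ℝ) * psm (1 / 2) (j + 1) ((x : ℝ) / ν)| :=
        abs_sum_le_sum_abs _ _
    _ ≤ ∑ x ∈ range (h + 1), |(c x : ℝ)| * (|bc (1 / 2) j| * ((h : ℝ) / ν) ^ (j + 1)) := sum_le_sum h2
    _ = wt h c * (|bc (1 / 2) j| * ((h : ℝ) / ν) ^ (j + 1)) := by rw [← sum_mul, wt_cast]
    _ = |bc (1 / 2) j| * (2 * wt h c * (h : ℝ) ^ (j + 1)) / (2 * (ν ^ j * ν)) := by
        rw [div_pow, pow_succ ν j]
        field_simp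
    _ ≤ |bc (1 / 2) j| * ν / (2 * (ν ^ j * ν)) := by
        gcongr
    _ = |bc (1 / 2) j| / (2 * ν ^ j) := by
        field_simp

/-- The sign and the size of the form. -/
theorem rform_bound {ν : ℝ} {h j : ℕ} {c : ℕ → ℤ} (hN' : 0 < ν) (hm : ∀ i < j, mom h c i = 0) (hj : mom h c j ≠ 0)
    (hbig : 2 * (wt h c : ℝ) * (h : ℝ) ^ (j + 1) ≤ ν) :
    √ν / (2 * (4 * ν) ^ j) ≤ |rform ν h c| ∧ (0 < rform ν h c ↔ 0 < sg j * mom h c j) := by
  have hs : 0 < √ν := Real.sqrt_pos.2 hN'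
  set F := ∑ x ∈ range (h + 1), (c x : ℝ) * √(1 + (x : ℝ) / ν) with hF
  have h1 := main_bound hN' hm hbig
  rw [← hF] at h1
  have hf : rform ν h c = √ν * F := rform_eq hN' c
  set b := bc (1 / 2) j with hb
  have h2 : (1 : ℝ) ≤ |(mom h c j : ℝ)| := by
    have : (1 : ℤ) ≤ |mom h c j| := Int.one_le_abs hj
    exact_mod_cast this
  have h3 : (1 / 4 : ℝ) ^ j ≤ |b| := le_abs_bc j
  have hb0 : 0 < |b| := lt_of_lt_of_le (by positivity) h3
  have hNj : (0 : ℝ) < ν ^ j := by positivity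
  have e1 : |b * mom h c j / ν ^ j| = |b| * |(mom h c j : ℝ)| / ν ^ j := by
    rw [abs_div, abs_mul, abs_of_pos hNj]
  have h4 : |b| / ν ^ j ≤ |b * mom h c j / ν ^ j| := by
    rw [e1]
    gcongr
    exact le_mul_of_one_le_right (abs_nonneg _) h2
  have e2 : |b| / (2 * ν ^ j) = |b| / ν ^ j / 2 := by
    field_simp
  rw [e2] at h1
  have h5 : 0 < |b| / ν ^ j := by positivity
  constructor
  · have h6 : |b * mom h c j / ν ^ j| - |F| ≤ |F - b * mom h c j / ν ^ j| := by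
      rw [abs_sub_comm F]
      exact abs_sub_abs_le_abs_sub _ _
    have h7 : |b| / ν ^ j / 2 ≤ |F| := by linarith
    rw [hf, abs_mul, abs_of_pos hs]
    have h8 : √ν / (2 * (4 * ν) ^ j) = √ν * ((1 / 4 : ℝ) ^ j / ν ^ j / 2) := by
      rw [mul_pow, div_pow, one_pow]
      field_simp
    rw [h8]
    have h9 : (1 / 4 : ℝ) ^ j / ν ^ j / 2 ≤ |b| / ν ^ j / 2 := by gcongr
    exact mul_le_mul_of_nonneg_left (h9.trans h7) hs.le
  · have h6 := abs_le.1 h1
    have hsg := sg_mul_bc_pos j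
    rw [← hb] at hsg
    have hiff : (0 < sg j * mom h c j) ↔ 0 < b * mom h c j := by
      have e3 : ((sg j * mom h c j : ℤ) : ℝ) * (b * mom h c j) = ((sg j : ℝ) * b) * (mom h c j : ℝ) ^ 2 := by
        push_cast
        ring
      have h7 : 0 < ((sg j * mom h c j : ℤ) : ℝ) * (b * mom h c j) := by
        rw [e3]
        have : (mom h c j : ℝ) ≠ 0 := by exact_mod_cast hj
        positivity
      constructor
      · intro h8
        have h9 : 0 < ((sg j * mom h c j : ℤ) : ℝ) := by exact_mod_cast h8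
        exact (pos_iff_pos_of_mul_pos h7).1 h9
      · intro h8
        have h9 := (pos_iff_pos_of_mul_pos h7).2 h8
        exact_mod_cast h9
    rw [hiff, hf]
    constructor
    · intro h7
      have h8 : 0 < F := (pos_iff_pos_of_mul_pos h7).1 hs
      by_contra h9
      push Not at h9
      have h10 : b * mom h c j / ν ^ j ≤ 0 := div_nonpos_of_nonpos_of_nonneg h9 hNj.le
      rw [abs_of_nonpos h10] at h4
      linarith [h6.2]
    · intro h7
      have h10 : 0 < b * mom h c j / ν ^ j := div_pos h7 hNj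
      rw [abs_of_pos h10] at h4
      have h8 : 0 < F := by linarith [h6.1]
      positivity

end Pool.Agent.Lib.H22X
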