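import Pool.Agent.Lib.H22W.Final
import Pool.Agent.Lib.H22X.Center

/-!
# Lists with entries in an arithmetic progression
-/

open Finset Pool.Agent.Lib.H22W

namespace Pool.Agent.Lib.H22X

theorem sum_count {R : Type*} [CommRing R] {N D h : ℕ} (hD : 1 ≤ D) (φ : ℕ → R) (l : List ℕ)
    (hl : ∀ m ∈ l, ∃ x ≤ h, m = N + D * x) :
    ∑ x ∈ range (h + 1), ((l.count (N + D * x) : ℕ) : R) * φ (N + D * x) = (l.map φ).sum := by
  induction l with
  | nil => simp
  | cons a l ih =>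
    have h1 := ih fun m hm => hl m (List.mem_cons_of_mem _ hm)
    obtain ⟨x₀, h3, rfl⟩ := hl a List.mem_cons_self
    have h4 : x₀ ∈ range (h + 1) := mem_range.2 (by omega)
    have h5 : ∀ x, ((N + D * x₀) :: l).count (N + D * x) = l.count (N + D * x) + if x = x₀ then 1 else 0 := by
      intro x
      rw [List.count_cons]
      congr 1
      by_cases hx : x = x₀
      · subst hx
        simp
      · have : ¬ (N + D * x₀ = N + D * x) := by
          intro hcon
          apply hx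
          have h6 : D * x₀ = D * x := by omega
          exact (Nat.eq_of_mul_eq_mul_left (by omega) h6).symm
        have h7 : ((N + D * x₀) == (N + D * x)) = false := beq_eq_false_iff_ne.2 this
        rw [h7, if_neg hx]
        rfl
    simp only [h5, Nat.cast_add, add_mul, sum_add_distrib, h1, List.map_cons, List.sum_cons]
    rw [add_comm]
    congr 1
    rw [sum_eq_single x₀]
    · simp
    · intro x _ hx
      simp [hx]
    · intro hcon
      exact absurd h4 hcon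

/-- The difference of the multiplicities. -/
def cd (N D : ℕ) (l₁ l₂ : List ℕ) (x : ℕ) : ℤ := (l₁.count (N + D * x) : ℤ) - l₂.count (N + D * x)

section

variable {N D h : ℕ} {l₁ l₂ : List ℕ}

theorem rform_cd (hD : 1 ≤ D) (h₁ : ∀ m ∈ l₁, ∃ x ≤ h, m = N + D * x) (h₂ : ∀ m ∈ l₂, ∃ x ≤ h, m = N + D * x) :
    √D * rform ((N : ℝ) / D) h (cd N D l₁ l₂) = rsum l₁ - rsum l₂ := by
  have hD' : (0 : ℝ) < D := by exact_mod_cast hD
  rw [rsum, rsum, ← sum_count hD (fun m => √(m : ℝ)) l₁ h₁, ← sum_count hD (fun m => √(m : ℝ)) l₂ h₂,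
    ← sum_sub_distrib, rform, mul_sum]
  refine sum_congr rfl fun x _ => ?_
  have e : ((N + D * x : ℕ) : ℝ) = D * ((N : ℝ) / D + x) := by
    push_cast
    field_simp
  rw [cd, e, Real.sqrt_mul hD'.le]
  push_cast
  ring

theorem mom_cd (hD : 1 ≤ D) (h₁ : ∀ m ∈ l₁, ∃ x ≤ h, m = N + D * x) (h₂ : ∀ m ∈ l₂, ∃ x ≤ h, m = N + D * x) (i : ℕ) :
    (D : ℤ) ^ i * mom h (cd N D l₁ l₂) i = psum N l₁ i - psum N l₂ i := by
  rw [psum, psum, ← sum_count hD (fun m => ((m : ℤ) - N) ^ i) l₁ h₁,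
    ← sum_count hD (fun m => ((m : ℤ) - N) ^ i) l₂ h₂, ← sum_sub_distrib, mom, mul_sum]
  refine sum_congr rfl fun x _ => ?_
  have e : ((N + D * x : ℕ) : ℤ) - N = D * x := by
    push_cast
    ring
  rw [cd, e, mul_pow]
  ring

theorem wt_cd (hD : 1 ≤ D) (h₁ : ∀ m ∈ l₁, ∃ x ≤ h, m = N + D * x) (h₂ : ∀ m ∈ l₂, ∃ x ≤ h, m = N + D * x) :
    wt h (cd N D l₁ l₂) ≤ l₁.length + l₂.length := by
  have e : ∀ l : List ℕ, (∀ m ∈ l, ∃ x ≤ h, m = N + D * x) →
      ∑ x ∈ range (h + 1), l.count (N + D * x) = l.length := by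
    intro l hl
    have h3 := sum_count (R := ℤ) hD (fun _ => 1) l hl
    simp only [mul_one, List.map_const', List.sum_replicate, nsmul_eq_mul] at h3
    exact_mod_cast h3
  rw [← e l₁ h₁, ← e l₂ h₂, ← sum_add_distrib, wt]
  refine sum_le_sum fun x _ => ?_
  rw [cd]
  omega

theorem supp_nonempty (h₁ : ∀ m ∈ l₁, ∃ x ≤ h, m = N + D * x) (h₂ : ∀ m ∈ l₂, ∃ x ≤ h, m = N + D * x)
    (hp : ¬ l₁.Perm l₂) : (supp h (cd N D l₁ l₂)).Nonempty := by
  by_contra hcon
  rw [not_nonempty_iff_eq_empty] at hcon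
  apply hp
  rw [List.perm_iff_count]
  intro a
  by_cases ha : ∃ x ≤ h, a = N + D * x
  · obtain ⟨x, hx, rfl⟩ := ha
    by_contra hne
    have h3 : x ∈ supp h (cd N D l₁ l₂) := by
      refine mem_filter.2 ⟨mem_range.2 (by omega), ?_⟩
      rw [cd]
      omega
    rw [hcon] at h3
    exact absurd h3 (notMem_empty x)
  · have h3 : a ∉ l₁ := fun hm => ha (h₁ a hm)
    have h4 : a ∉ l₂ := fun hm => ha (h₂ a hm)
    rw [List.count_eq_zero_of_not_mem h3, List.count_eq_zero_of_not_mem h4]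

/-- Two lists which are not permutations of each other. -/
theorem lists_main (hN : 1 ≤ N) (hD : 1 ≤ D) (hh : 1 ≤ h) (h₁ : ∀ m ∈ l₁, ∃ x ≤ h, m = N + D * x)
    (h₂ : ∀ m ∈ l₂, ∃ x ≤ h, m = N + D * x) {J : ℕ}
    (hJ : √h * Real.log (2 * ((l₁.length + l₂.length : ℕ) : ℝ)) ≤ J)
    (hbig : 2 * (l₁.length + l₂.length) * D * h ^ (J + 1) ≤ N) (hp : ¬ l₁.Perm l₂) :
    ∃ j < l₁.length + l₂.length, (∀ i < j, psum N l₁ i = psum N l₂ i) ∧
      psum N l₁ j ≠ psum N l₂ j ∧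
      (rsum l₂ < rsum l₁ ↔ 0 < sg j * (psum N l₁ j - psum N l₂ j)) := by
  have hD' : (0 : ℝ) < D := by exact_mod_cast hD
  have hN' : (0 : ℝ) < N := by exact_mod_cast hN
  have hDz : ∀ i, (0 : ℤ) < (D : ℤ) ^ i := fun i => pow_pos (by exact_mod_cast hD) i
  have hsupp := supp_nonempty h₁ h₂ hp
  obtain ⟨j, hj1, hj2⟩ := exists_first hsupp
  have hw := wt_cd hD h₁ h₂
  have hjJ : j ≤ J := by
    have h3 := lt_cheb hh hsupp hj1
    have hM : (1 : ℝ) ≤ wt h (cd N D l₁ l₂) := by exact_mod_cast one_le_wt hsupp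
    have h4 : Real.log (2 * wt h (cd N D l₁ l₂)) ≤
        Real.log (2 * ((l₁.length + l₂.length : ℕ) : ℝ)) := by
      apply Real.log_le_log (by linarith)
      have : (wt h (cd N D l₁ l₂) : ℝ) ≤ ((l₁.length + l₂.length : ℕ) : ℝ) := by exact_mod_cast hw
      linarith
    have h5 : √(h : ℝ) * Real.log (2 * wt h (cd N D l₁ l₂)) ≤
        √h * Real.log (2 * ((l₁.length + l₂.length : ℕ) : ℝ)) := by
      gcongr
    have h6 : (j : ℝ) < ((J + 1 : ℕ) : ℝ) := by
      push_cast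
      linarith
    have h7 : j < J + 1 := by exact_mod_cast h6
    omega
  have hbig' : 2 * (wt h (cd N D l₁ l₂) : ℝ) * (h : ℝ) ^ (j + 1) ≤ (N : ℝ) / D := by
    have h3 : h ^ (j + 1) ≤ h ^ (J + 1) := Nat.pow_le_pow_right hh (by omega)
    have h4 : 2 * wt h (cd N D l₁ l₂) ≤ 2 * (l₁.length + l₂.length) := by omega
    have h5 : 2 * wt h (cd N D l₁ l₂) * D * h ^ (j + 1) ≤ N :=
      (Nat.mul_le_mul (Nat.mul_le_mul h4 le_rfl) h3).trans hbig
    rw [le_div_iff₀ hD']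
    have h6 : ((2 * wt h (cd N D l₁ l₂) * D * h ^ (j + 1) : ℕ) : ℝ) ≤ N := by exact_mod_cast h5
    push_cast at h6
    linarith
  obtain ⟨-, h4⟩ := rform_bound (div_pos hN' hD') hj1 hj2 hbig'
  have hjn : j < l₁.length + l₂.length :=
    lt_of_lt_of_le (lt_card hsupp hj1) ((card_supp_le h _).trans hw)
  refine ⟨j, hjn, fun i hi => ?_, ?_, ?_⟩
  · have := mom_cd hD h₁ h₂ i
    rw [hj1 i hi, mul_zero] at this
    linarith
  · intro hcon
    apply hj2
    have := mom_cd hD h₁ h₂ j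
    rw [hcon, sub_self] at this
    rcases mul_eq_zero.1 this with h5 | h5
    · exact absurd h5 (hDz j).ne'
    · exact h5
  · rw [← mom_cd hD h₁ h₂ j, ← sub_pos, ← rform_cd hD h₁ h₂]
    have h5 : 0 < √(D : ℝ) := Real.sqrt_pos.2 hD'
    rw [mul_pos_iff_of_pos_left h5, h4]
    have e : sg j * ((D : ℤ) ^ j * mom h (cd N D l₁ l₂) j) = (D : ℤ) ^ j * (sg j * mom h (cd N D l₁ l₂) j) := by
      ring
    rw [e, mul_pos_iff_of_pos_left (hDz j)]

/-- The procedure is right for entries in an arithmetic progression. -/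
theorem prog_decides {J : ℕ} (hN : 1 ≤ N) (hD : 1 ≤ D) (hh : 1 ≤ h) (hl : ∀ m ∈ l₁ ++ l₂, ∃ x ≤ h, m = N + D * x)
    (hJ : √h * Real.log (2 * ((l₁.length + l₂.length : ℕ) : ℝ)) ≤ J)
    (hbig : 2 * (l₁.length + l₂.length) * D * h ^ (J + 1) ≤ N) :
    sqrtLE (l₁, l₂) = true ↔ rsum l₁ ≤ rsum l₂ := by
  by_cases hp : l₁.Perm l₂
  · have h1 : sqrtLE (l₁, l₂) = true := sqrtLE_equal fun j => offn_perm hp
    rw [h1, rsum_perm hp]
    simp
  · have hne : l₁ ++ l₂ ≠ [] := by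
      intro h0
      obtain ⟨h1, h2⟩ := List.append_eq_nil_iff.1 h0
      apply hp
      rw [h1, h2]
    have hmem := mn_mem hne
    obtain ⟨x₀, hx₀, hx₁⟩ := hl _ hmem
    set N' := mn (l₁ ++ l₂) with hN'
    have hNN' : N ≤ N' := by omega
    have hl' : ∀ m ∈ l₁ ++ l₂, ∃ x ≤ h, m = N' + D * x := by
      intro m hm
      obtain ⟨x, hx, hx2⟩ := hl m hm
      have h1 : N' ≤ m := mn_le hm
      have h2 : x₀ ≤ x := by
        by_contra hcon
        push Not at hcon
        have : D * x < D * x₀ := Nat.mul_lt_mul_of_pos_left hcon (by omega)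
        omega
      obtain ⟨y, rfl⟩ := Nat.exists_eq_add_of_le h2
      refine ⟨y, by omega, ?_⟩
      rw [hx2, hx₁]
      ring
    have hle : ∀ m ∈ l₁ ++ l₂, N' ≤ m := fun m hm => mn_le hm
    obtain ⟨j, hjn, hj1, hj2, hj3⟩ := lists_main (hN.trans hNN') hD hh
      (fun m hm => hl' m (List.mem_append_left _ hm)) (fun m hm => hl' m (List.mem_append_right _ hm))
      hJ (hbig.trans hNN') hp
    have e₁ : ∀ i, psum N' l₁ i = offn N' l₁ i :=
      psum_eq_offn fun m hm => hle m (List.mem_append_left _ hm)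
    have e₂ : ∀ i, psum N' l₂ i = offn N' l₂ i :=
      psum_eq_offn fun m hm => hle m (List.mem_append_right _ hm)
    have hne' : offn N' l₁ j ≠ offn N' l₂ j := by
      intro hcon
      apply hj2
      rw [e₁, e₂, hcon]
    have h1 : sqrtLE (l₁, l₂) = ansj (l₁, l₂) j := by
      apply sqrtLE_first
      · exact hjn
      · exact hne'
      · intro i hi
        have := hj1 i hi
        rw [e₁, e₂] at this
        exact_mod_cast this
    have h2 := ansj_iff (a := (l₁, l₂)) (j := j) hne'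
    rw [h1, h2]
    rw [e₁, e₂] at hj3
    show ¬ 0 < sg j * ((offn N' l₁ j : ℤ) - offn N' l₂ j) ↔ _
    rw [← hj3, not_lt]

end

end Pool.Agent.Lib.H22X
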